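import Pool.Agent.W206.YP.Stm

/-!
# Zilber-Pink for `Y(1)^n` and gates: the part `S_PB`
-/

set_option autoImplicit false

namespace Pool.Agent.W804.YP.PB

open UpperHalfPlane H294ZP Pool.Agent.W206.YP

theorem denom_ne (a b c d : ℤ) (h : 0 < a * d - b * c) (τ : ℍ) :
    (c : ℂ) * (τ : ℂ) + (d : ℂ) ≠ 0 := by
  intro h0
  have him := congrArg Complex.im h0
  have hre := congrArg Complex.re h0
  simp only [Complex.add_im, Complex.mul_im, Complex.intCast_re, Complex.intCast_im,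
    Complex.add_re, Complex.mul_re, zero_mul, sub_zero, add_zero, Complex.zero_re,
    Complex.zero_im] at him hre
  have hτ : (τ : ℂ).im ≠ 0 := τ.im_pos.ne'
  have hc : (c : ℝ) = 0 := by
    rcases mul_eq_zero.1 him with h1 | h1
    · exact h1
    · exact absurd h1 hτ
  have hc' : c = 0 := by exact_mod_cast hc
  rw [hc, zero_mul, zero_add] at hre
  have hd : d = 0 := by exact_mod_cast hre
  rw [hc', hd] at h
  simp at h

theorem mobEx (a b c d : ℤ) (h : 0 < a * d - b * c) (τ : ℍ) :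
    ∃ w : ℍ, (w : ℂ) * ((c : ℂ) * (τ : ℂ) + (d : ℂ)) = (a : ℂ) * (τ : ℂ) + (b : ℂ) := by
  have hD := denom_ne a b c d h τ
  have hpos : 0 < (((a : ℂ) * (τ : ℂ) + (b : ℂ)) / ((c : ℂ) * (τ : ℂ) + (d : ℂ))).im := by
    rw [Complex.div_im]
    have hn : 0 < Complex.normSq ((c : ℂ) * (τ : ℂ) + (d : ℂ)) := Complex.normSq_pos.2 hD
    rw [← sub_div]
    apply div_pos _ hn
    simp only [Complex.add_im, Complex.mul_im, Complex.intCast_re, Complex.intCast_im,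
      Complex.add_re, Complex.mul_re, zero_mul, sub_zero, add_zero]
    have hτ : 0 < (τ : ℂ).im := τ.im_pos
    have hdet : (0 : ℝ) < (a : ℝ) * d - b * c := by exact_mod_cast h
    nlinarith [mul_pos hτ hdet]
  refine ⟨⟨_, hpos⟩, ?_⟩
  exact div_mul_cancel₀ _ hD

/-- the property of the matrix -/
def PP (f g : Polynomial ℂ) (a b c d : ℤ) : Prop := ∀ τ w : ℍ,
  (w : ℂ) * ((c : ℂ) * (τ : ℂ) + (d : ℂ)) = (a : ℂ) * (τ : ℂ) + (b : ℂ) →
    ∃ s : ℂ, f.eval s = jj τ ∧ g.eval s = jj w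

theorem left (f g : Polynomial ℂ) (a b c d : ℤ) (h : 0 < a * d - b * c) (p q r s : ℤ)
    (hη : p * s - q * r = 1) (hP : PP f g a b c d) :
    PP f g (p * a + q * c) (p * b + q * d) (r * a + s * c) (r * b + s * d) := by
  intro τ w' hw'
  obtain ⟨w, hw⟩ := mobEx a b c d h τ
  obtain ⟨t, h1, h2⟩ := hP τ w hw
  refine ⟨t, h1, h2.trans ?_⟩
  have hD := denom_ne a b c d h τ
  have key : (w' : ℂ) * ((r : ℂ) * (w : ℂ) + (s : ℂ)) = (p : ℂ) * (w : ℂ) + (q : ℂ) := by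
    apply mul_right_cancel₀ hD
    have e1 : (w' : ℂ) * ((r : ℂ) * (w : ℂ) + (s : ℂ)) * ((c : ℂ) * (τ : ℂ) + (d : ℂ)) =
        (w' : ℂ) * ((r : ℂ) * ((w : ℂ) * ((c : ℂ) * (τ : ℂ) + (d : ℂ))) +
          (s : ℂ) * ((c : ℂ) * (τ : ℂ) + (d : ℂ))) := by ring
    have e2 : ((p : ℂ) * (w : ℂ) + (q : ℂ)) * ((c : ℂ) * (τ : ℂ) + (d : ℂ)) =
        (p : ℂ) * ((w : ℂ) * ((c : ℂ) * (τ : ℂ) + (d : ℂ))) +
          (q : ℂ) * ((c : ℂ) * (τ : ℂ) + (d : ℂ)) := by ring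
    rw [e1, e2, hw]
    push_cast at hw'
    linear_combination hw'
  exact (inv_jj p q r s hη w w' key).symm

theorem right (f g : Polynomial ℂ) (a b c d : ℤ) (p q r s : ℤ)
    (hδ : p * s - q * r = 1) (hP : PP f g a b c d) :
    PP f g (a * p + b * r) (a * q + b * s) (c * p + d * r) (c * q + d * s) := by
  intro τ' w hw
  have hdet : 0 < p * s - q * r := by rw [hδ]; norm_num
  obtain ⟨τ, hτ⟩ := mobEx p q r s hdet τ'
  have hD := denom_ne p q r s hdet τ'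
  have key : (w : ℂ) * ((c : ℂ) * (τ : ℂ) + (d : ℂ)) = (a : ℂ) * (τ : ℂ) + (b : ℂ) := by
    apply mul_right_cancel₀ hD
    have e1 : (w : ℂ) * ((c : ℂ) * (τ : ℂ) + (d : ℂ)) * ((r : ℂ) * (τ' : ℂ) + (s : ℂ)) =
        (w : ℂ) * ((c : ℂ) * ((τ : ℂ) * ((r : ℂ) * (τ' : ℂ) + (s : ℂ))) +
          (d : ℂ) * ((r : ℂ) * (τ' : ℂ) + (s : ℂ))) := by ring
    have e2 : ((a : ℂ) * (τ : ℂ) + (b : ℂ)) * ((r : ℂ) * (τ' : ℂ) + (s : ℂ)) =
        (a : ℂ) * ((τ : ℂ) * ((r : ℂ) * (τ' : ℂ) + (s : ℂ))) +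
          (b : ℂ) * ((r : ℂ) * (τ' : ℂ) + (s : ℂ)) := by ring
    rw [e1, e2, hτ]
    push_cast at hw
    linear_combination hw
  obtain ⟨t, h1, h2⟩ := hP τ w key
  exact ⟨t, h1.trans (inv_jj p q r s hδ τ' τ hτ), h2⟩

/-- reduction to upper triangular matrices -/
theorem tri (f g : Polynomial ℂ) (a b c d : ℤ) (h : 0 < a * d - b * c) (hP : PP f g a b c d) :
    ∃ b' d' : ℤ, (Int.gcd a c : ℤ) * d' = a * d - b * c ∧ 0 < (Int.gcd a c : ℤ) ∧ 0 < d' ∧
      PP f g (Int.gcd a c : ℤ) b' 0 d' := by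
  have hg0 : Int.gcd a c ≠ 0 := by
    intro h0
    rw [Int.gcd_eq_zero_iff] at h0
    rw [h0.1, h0.2] at h
    simp at h
  have hgpos : 0 < (Int.gcd a c : ℤ) := by
    have : 0 < Int.gcd a c := Nat.pos_of_ne_zero hg0
    exact_mod_cast this
  obtain ⟨a1, ha1⟩ : (Int.gcd a c : ℤ) ∣ a := Int.gcd_dvd_left ..
  obtain ⟨c1, hc1⟩ : (Int.gcd a c : ℤ) ∣ c := Int.gcd_dvd_right ..
  have hbez := Int.gcd_eq_gcd_ab a c
  set G : ℤ := (Int.gcd a c : ℤ) with hG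
  set p : ℤ := Int.gcdA a c
  set q : ℤ := Int.gcdB a c
  have h1 : p * a1 - q * (-c1) = 1 := by
    apply mul_left_cancel₀ hgpos.ne'
    linear_combination (-1 : ℤ) * hbez - p * ha1 - q * hc1
  have hd' : G * (-c1 * b + a1 * d) = a * d - b * c := by
    linear_combination b * hc1 - d * ha1
  have hd'pos : 0 < -c1 * b + a1 * d := by
    have : 0 < G * (-c1 * b + a1 * d) := by rw [hd']; exact h
    exact (mul_pos_iff_of_pos_left hgpos).1 this
  refine ⟨p * b + q * d, -c1 * b + a1 * d, hd', hgpos, hd'pos, ?_⟩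
  have hL := left f g a b c d h p q (-c1) a1 h1 hP
  have e1 : p * a + q * c = G := by linear_combination (-1 : ℤ) * hbez
  have e2 : -c1 * a + a1 * c = 0 := by
    linear_combination (-c1) * ha1 + a1 * hc1
  rw [e1, e2] at hL
  exact hL

theorem star (hPG : S_PG) (hGRO : S_GRO) (f g : Polynomial ℂ) (hf : 0 < f.natDegree)
    (hg : 0 < g.natDegree) (a b c d : ℤ) (h : 0 < a * d - b * c) (hP : PP f g a b c d) :
    (Int.gcd a c : ℤ) ^ 2 * (f.natDegree : ℤ) = (g.natDegree : ℤ) * (a * d - b * c) := by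
  obtain ⟨b', d', h1, h2, h3, h4⟩ := tri f g a b c d h hP
  have h5 := hPG hGRO (Int.gcd a c : ℤ) b' d' f g h2 h3 hf hg (by
    intro τ w hw
    apply h4 τ w
    push_cast
    push_cast at hw
    linear_combination hw)
  rw [← h1]
  linear_combination (-(Int.gcd a c : ℤ)) * h5

theorem sq_eq {x y F K : ℤ} (hx : 0 < x) (hy : 0 < y) (hF : 0 < F) (h1 : x ^ 2 * F = K)
    (h2 : y ^ 2 * F = K) : x = y := by
  have h3 : x ^ 2 = y ^ 2 := mul_right_cancel₀ hF.ne' (h1.trans h2.symm)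
  exact (sq_eq_sq₀ hx.le hy.le).1 h3

theorem unbounded (hGRO : S_GRO) (S : Set ℂ) (hS : S.Finite) : ∃ τ : ℍ, jj τ ∉ S := by
  by_contra hcon
  push Not at hcon
  obtain ⟨Y, C, hC, hj⟩ := hGRO
  obtain ⟨R, hR⟩ := hS.isBounded.exists_norm_le
  have hy : 0 < max 1 (max Y (C * R)) := lt_of_lt_of_le one_pos (le_max_left _ _)
  set y : ℝ := max 1 (max Y (C * R)) with hydef
  let τ : ℍ := ⟨⟨0, y⟩, hy⟩
  have him : τ.im = y := rfl
  have h1 := (hj τ (by rw [him]; exact (le_max_left _ _).trans (le_max_right _ _))).1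
  have h2 := hR _ (hcon τ)
  rw [him] at h1
  have h3 : C * ‖jj τ‖ ≤ C * R := mul_le_mul_of_nonneg_left h2 hC.le
  have h4 : C * R ≤ y := (le_max_right _ _).trans (le_max_right _ _)
  have h5 := Real.add_one_le_exp (2 * Real.pi * y)
  have h6 : y ≤ 2 * Real.pi * y := by
    have := Real.pi_gt_three
    nlinarith
  linarith

theorem main : S_PG → S_GRO → S_PB := by
  intro hPG hGRO N f g hN hf hg ⟨a0, b0, c0, d0, hdet0, hP0⟩
  have hNZ : (0 : ℤ) < (N : ℤ) := by exact_mod_cast hN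
  have hFZ : (0 : ℤ) < (f.natDegree : ℤ) := by exact_mod_cast hf
  obtain ⟨b, d, h1, h2, h3, hP⟩ := tri f g a0 b0 c0 d0 (by rw [hdet0]; exact hNZ) hP0
  set a : ℤ := (Int.gcd a0 c0 : ℤ) with ha
  rw [hdet0] at h1
  -- the reference
  have s0 := star hPG hGRO f g hf hg a b 0 d (by rw [mul_zero, sub_zero, h1]; exact hNZ) hP
  have e0 : (Int.gcd a 0 : ℤ) = a := by
    rw [Int.gcd_zero_right]
    exact Int.natAbs_of_nonneg h2.le
  rw [e0, mul_zero, sub_zero, h1] at s0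
  -- first column `(b, d)`
  have hP1 := right f g a b 0 d 0 (-1) 1 0 (by norm_num) hP
  have r1 : a * 0 + b * 1 = b := by ring
  have r2 : a * (-1) + b * 0 = -a := by ring
  have r3 : (0 : ℤ) * 0 + d * 1 = d := by ring
  have r4 : (0 : ℤ) * (-1) + d * 0 = 0 := by ring
  rw [r1, r2, r3, r4] at hP1
  have hdet1 : b * 0 - (-a) * d = (N : ℤ) := by rw [← h1]; ring
  have s1 := star hPG hGRO f g hf hg b (-a) d 0 (by rw [hdet1]; exact hNZ) hP1
  rw [hdet1] at s1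
  have hgcd1pos : (0 : ℤ) < (Int.gcd b d : ℤ) := by
    have : 0 < Int.gcd b d := Int.gcd_pos_of_ne_zero_right _ h3.ne'
    exact_mod_cast this
  have g1 : (Int.gcd b d : ℤ) = a := sq_eq hgcd1pos h2 hFZ s1 s0
  obtain ⟨b', hb'⟩ : a ∣ b := g1 ▸ Int.gcd_dvd_left ..
  obtain ⟨d', hd'⟩ : a ∣ d := g1 ▸ Int.gcd_dvd_right ..
  -- first column `(0, d)`
  have hP2 := right f g a b 0 d (-b') (-1) 1 0 (by norm_num) hP
  have q1 : a * (-b') + b * 1 = 0 := by rw [hb']; ring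
  have q3 : (0 : ℤ) * (-b') + d * 1 = d := by ring
  rw [q1, r2, q3, r4] at hP2
  have hdet2 : (0 : ℤ) * 0 - (-a) * d = (N : ℤ) := by rw [← h1]; ring
  have s2 := star hPG hGRO f g hf hg 0 (-a) d 0 (by rw [hdet2]; exact hNZ) hP2
  rw [hdet2, Int.gcd_zero_left, Int.natAbs_of_nonneg h3.le] at s2
  have hda : d = a := sq_eq h3 h2 hFZ s2 s0
  -- now `w = τ + b'`
  have hall : ∀ τ : ℍ, ∃ s : ℂ, f.eval s = jj τ ∧ g.eval s = jj τ := by
    intro τ
    obtain ⟨w, hw⟩ := mobEx 1 b' 0 1 (by norm_num) τ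
    have haC : (a : ℂ) ≠ 0 := by exact_mod_cast h2.ne'
    obtain ⟨s, hs1, hs2⟩ := hP τ w (by
      rw [hda, hb']
      push_cast at hw ⊢
      linear_combination (a : ℂ) * hw)
    exact ⟨s, hs1, hs2.trans (inv_jj 1 b' 0 1 (by norm_num) τ w hw)⟩
  by_contra hfg
  have hne : f - g ≠ 0 := sub_ne_zero.2 hfg
  obtain ⟨τ, hτ⟩ := unbounded hGRO ((fun s => f.eval s) '' {s | (f - g).IsRoot s})
    ((Polynomial.finite_setOf_isRoot hne).image _)
  apply hτ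
  obtain ⟨s, hs1, hs2⟩ := hall τ
  refine ⟨s, ?_, hs1⟩
  show (f - g).IsRoot s
  rw [Polynomial.IsRoot.def, Polynomial.eval_sub, hs1, hs2, sub_self]

end Pool.Agent.W804.YP.PB
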